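import Mathlib
import Pool.Agent.X26.DP.Sg

/-!
# The lower bound of the predicted order for all patterns in a common narrow dilate

Let `k ≥ 1`. For a positive proportion of the `d ≤ D`, where `D` is any number between a power of `log X` and
`X`, ALL the patterns `{d f : f ∈ F}`, `0 ∈ F ⊆ {0, …, k - 1}`, are admissible and the number of the primes
`p ≤ X` for which all `p + d f`, `f ∈ F`, are prime is at least a constant times the number predicted by
Hardy and Littlewood, for the same `d`. The same holds in every interval and for every set of primes of positive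
relative density in it, all `p + d f` being in the set.

Method: a relative Szemerédi theorem in windows of length `D` with an enveloping sieve, in which a counting lemma is
proved with an arbitrary bounded function of the difference; this gives all patterns at once.
-/

set_option autoImplicit false

open Finset

namespace Pool.Agent.Results.MP_68a45e_nt.AllPatternsInDilates

/-- the number of residue classes modulo `p` occupied by `T` -/
def nu (T : Finset ℕ) (p : ℕ) : ℕ := (T.image (fun t => t % p)).card

/-- the factor at `p` of the singular series of `T` -/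
noncomputable def loc (T : Finset ℕ) (p : ℕ) : ℝ := (1 - (nu T p : ℝ) / p) / (1 - 1 / (p : ℝ)) ^ T.card

/-- the singular series of `T` -/
noncomputable def sing (T : Finset ℕ) : ℝ := ∏' p : Nat.Primes, loc T p

/-- the pattern `{d f : f ∈ F}` -/
def dilate (d : ℕ) (F : Finset ℕ) : Finset ℕ := F.image (fun f => d * f)

/-- The product `sing T` converges. For all `k` and `δ > 0` there are `c > 0`, `B` and `X₀` such that for
all `X ≥ X₀`, all `y`, all `D` with `log ^ B X ≤ D ≤ X` and all sets `A` of at least `δ X / log X` primes
of `(y, y + X]` there is a set `G` of at least `c D` integers `1 ≤ d ≤ D` such that for every `d ∈ G` and EVERY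
`F ⊆ {0, …, k - 1}` with `0 ∈ F` the pattern `{d f : f ∈ F}` is admissible, its singular series is positive and
at least `c sing X / (log X) ^ |F|` elements `p` of `A` satisfy `p + d f ∈ A` for all `f ∈ F`. -/
theorem result :
    (∀ T : Finset ℕ, HasProd (fun p : Nat.Primes => loc T p) (sing T)) ∧
    ∀ (k : ℕ) (δ : ℝ), 0 < δ → ∃ c : ℝ, 0 < c ∧ ∃ B X₀ : ℕ, ∀ X y D : ℕ, X₀ ≤ X →
      Real.log X ^ B ≤ D → D ≤ X → ∀ A : Finset ℕ, A ⊆ Ioc y (y + X) → (∀ p ∈ A, p.Prime) →
      δ * (X / Real.log X) ≤ A.card →
      ∃ G ⊆ Icc 1 D, c * D ≤ (G.card : ℝ) ∧ ∀ d ∈ G, ∀ F ⊆ range k, 0 ∈ F →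
        (∀ p : ℕ, p.Prime → nu (dilate d F) p < p) ∧ 0 < sing (dilate d F) ∧
        c * sing (dilate d F) * (X / Real.log X ^ F.card) ≤
          ((A.filter (fun p => ∀ f ∈ F, p + d * f ∈ A)).card : ℝ) :=
  ⟨Pool.Agent.X26.DP.SN_hasProd, fun k _ hδ => Pool.Agent.X26.DP.main k hδ⟩

end Pool.Agent.Results.MP_68a45e_nt.AllPatternsInDilates
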