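import Pool.Agent.X26.GP.Tup

/-!
# Chen's theorem for admissible sets, in all patterns with common differences

`T` is an admissible set of `r` integers with `0 ∈ T`, and `h ≠ 0` an element of `T`; all this may grow with `x`.
We count the primes `n` for which `n + h` has at most two prime factors and all the other `n + t`, `t ∈ T`, are
almost primes, and show that such `n` occur in all patterns `n + ∑ f_i d_i`, `f ∈ F`, for a positive proportion of all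
vectors of differences `d` in the cube `[1, D] ^ m`, `D` between a power of the logarithm and the length of the window.
The vector `d` serves for all sets `F` of vectors, and the number of the patterns has, for every `F`, the order of
magnitude which the Hardy-Littlewood conjecture predicts for the set `T + {∑ f_i d_i : f ∈ F}`.
-/

set_option autoImplicit false

namespace Pool.Agent.Results.MP_68a45e_nt.ChenTuplesInPatterns

open Finset

/-- The number of the residue classes modulo `q` occupied by `T`. -/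
def nu (T : Finset ℤ) (q : ℕ) : ℕ := (T.image (fun t : ℤ => t % q)).card

/-- The local factor `(1 - ν(q) / q) (1 - 1 / q) ^ (-|T|)`. -/
noncomputable def loc (T : Finset ℤ) (q : ℕ) : ℝ := (1 - (nu T q : ℝ) / q) / (1 - 1 / (q : ℝ)) ^ T.card

/-- The singular series `𝔖(T)`, the product of the local factors over all primes. -/
noncomputable def Sing (T : Finset ℤ) : ℝ := ∏' q : Nat.Primes, loc T q

/-- The sets which miss a residue class modulo every prime. -/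
def Admissible (T : Finset ℤ) : Prop := ∀ q : ℕ, q.Prime → nu T q < q

/-- `m ≠ 0` is up to the sign a product of at most `j` primes, all of them larger than `w`. -/
def Almost (j : ℕ) (w : ℝ) (m : ℤ) : Prop :=
  m ≠ 0 ∧ m.natAbs.primeFactorsList.length ≤ j ∧ ∀ q : ℕ, q.Prime → (q : ℤ) ∣ m → w < q

open Classical in
/-- The primes `n` in `(y₁, y₂]` for which `n + h` is a product of at most two primes, both larger than
`x ^ (1/9)`, and all `n + t`, `t ∈ T`, are products of at most `j` primes larger than `x ^ (1/j)`. -/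
noncomputable def Chen (j x : ℕ) (T : Finset ℤ) (h : ℤ) (y₁ y₂ : ℕ) : Finset ℕ :=
  (Ioc y₁ y₂).filter (fun n : ℕ => n.Prime ∧ Almost 2 ((x : ℝ) ^ (1 / 9 : ℝ)) (n + h) ∧
    ∀ t ∈ T, Almost j ((x : ℝ) ^ (1 / (j : ℝ))) (n + t))

/-- The set of the integers `t + ∑ f_i d_i`, `t ∈ T`, `f ∈ F`. -/
def sumSet {m : ℕ} (T : Finset ℤ) (d : Fin m → ℕ) (F : Finset (Fin m → ℕ)) : Finset ℤ :=
  (T ×ˢ F).image (fun p : ℤ × (Fin m → ℕ) => p.1 + ((∑ i, p.2 i * d i : ℕ) : ℤ))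

/-- For every `r` there is `j ≥ 1` such that for all `m` and `k` there are `c > 0` and `B` with: for every `θ > 0`, all
large `x`, all admissible sets `T` of `r` integers `|t| ≤ x` with `0 ∈ T`, every `0 ≠ h ∈ T`, every window `(y₁, y₂]`
with `y₂ ≤ x` and `y₂ - y₁ ≥ θ x` and every `D` from `log ^ B x` to `y₂ - y₁`, at least `c D ^ m` vectors `d` with
entries in `[1, D]` have the following property. For all sets `F` of vectors with entries in `{0, ..., k - 1}` which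
contain the vector `0`, the set `T' = T + {∑ f_i d_i : f ∈ F}` is an admissible set of `r |F|` integers, and for at
least `c 𝔖(T') (y₂ - y₁) / log ^ |T'| x` elements `n` of `Chen j x T h y₁ y₂` all the `n + ∑ f_i d_i`, `f ∈ F`, are
elements of `Chen j x T h y₁ y₂`. -/
theorem result (r : ℕ) : ∃ j : ℕ, 1 ≤ j ∧ ∀ m k : ℕ, ∃ c : ℝ, 0 < c ∧ ∃ B : ℕ, ∀ θ : ℝ, 0 < θ →
    ∃ x₀ : ℕ, ∀ x : ℕ, x₀ ≤ x → ∀ T : Finset ℤ, T.card = r → Admissible T → (∀ t ∈ T, |t| ≤ x) →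
      (0 : ℤ) ∈ T → ∀ h ∈ T, h ≠ 0 → ∀ y₁ y₂ D : ℕ, y₂ ≤ x → θ * x ≤ (y₂ : ℝ) - y₁ →
      Real.log x ^ B ≤ D → (D : ℝ) ≤ (y₂ : ℝ) - y₁ →
      ∃ G : Finset (Fin m → ℕ), (∀ d ∈ G, ∀ i, 1 ≤ d i ∧ d i ≤ D) ∧ c * (D : ℝ) ^ m ≤ G.card ∧
        ∀ d ∈ G, ∀ F : Finset (Fin m → ℕ), (∀ f ∈ F, ∀ i, f i < k) → (fun _ => 0) ∈ F →
          (sumSet T d F).card = r * F.card ∧ Admissible (sumSet T d F) ∧
          c * (Sing (sumSet T d F) * (((y₂ : ℝ) - y₁) / Real.log x ^ (sumSet T d F).card)) ≤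
            (((Chen j x T h y₁ y₂).filter
              (fun n => ∀ f ∈ F, n + ∑ i, f i * d i ∈ Chen j x T h y₁ y₂)).card : ℝ) := by
  classical
  obtain ⟨j, hj, c₀, hc₀, h0⟩ := Pool.Agent.Y843.AC.HL.chen_low r
  refine ⟨j, hj, fun m k => ?_⟩
  obtain ⟨c, hc, B, x₂, h2⟩ := Pool.Agent.X26.GP.tup m k r j hj (θ := 1 / 2) (δ := c₀) (by norm_num) hc₀
  refine ⟨c, hc, B, fun θ hθ => ?_⟩
  obtain ⟨x₃, h3⟩ := h0 θ hθ
  obtain ⟨x₄, h4⟩ : ∃ x₄ : ℕ, ∀ x : ℕ, x₄ ≤ x → (x : ℝ) ^ (1 / 2 : ℝ) ≤ θ * x := by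
    have h2 := ((tendsto_rpow_atTop (show (0 : ℝ) < 1 / 2 by norm_num)).comp
      (tendsto_natCast_atTop_atTop (R := ℝ))).eventually (Filter.eventually_ge_atTop (1 / θ))
    rw [Filter.eventually_atTop] at h2
    obtain ⟨x₀, h⟩ := h2
    refine ⟨max x₀ 1, fun x hx => ?_⟩
    have h3 : 1 / θ ≤ (x : ℝ) ^ (1 / 2 : ℝ) := h x ((le_max_left _ _).trans hx)
    have hx0 : (0 : ℝ) < x := by exact_mod_cast (show 0 < x from (le_max_right _ _).trans hx)
    rw [div_le_iff₀ hθ] at h3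
    have h4 : (x : ℝ) = (x : ℝ) ^ (1 / 2 : ℝ) * (x : ℝ) ^ (1 / 2 : ℝ) := by
      rw [← Real.rpow_add hx0]
      norm_num
    have h5 : 0 < (x : ℝ) ^ (1 / 2 : ℝ) := by positivity
    calc (x : ℝ) ^ (1 / 2 : ℝ) = 1 * (x : ℝ) ^ (1 / 2 : ℝ) := (one_mul _).symm
      _ ≤ (x : ℝ) ^ (1 / 2 : ℝ) * θ * (x : ℝ) ^ (1 / 2 : ℝ) := mul_le_mul_of_nonneg_right h3 h5.le
      _ = θ * ((x : ℝ) ^ (1 / 2 : ℝ) * (x : ℝ) ^ (1 / 2 : ℝ)) := by ring
      _ = θ * x := by rw [← h4]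
  refine ⟨max (max x₂ 1) (max x₃ x₄), ?_⟩
  intro x hx T hTr hTa hTx h0T h hh hh0 y₁ y₂ D hy2 hy hD hDy
  have e2 : x₂ ≤ x := by omega
  have e3 : x₃ ≤ x := by omega
  have e4 : x₄ ≤ x := by omega
  have e5 : 1 ≤ x := by omega
  have hT : Pool.Agent.Y843.AC.HL.Tup r x T := ⟨hTr, hTa, hTx⟩
  have hwin : (x : ℝ) ^ (1 / 2 : ℝ) ≤ (y₂ : ℝ) - y₁ := (h4 x e4).trans hy
  have hx0 : 0 < (x : ℝ) ^ (1 / 2 : ℝ) := Real.rpow_pos_of_pos (by exact_mod_cast e5) _
  have h12 : y₁ ≤ y₂ := by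
    have : (y₁ : ℝ) ≤ y₂ := by linarith
    exact_mod_cast this
  have hcast : ((y₂ - y₁ : ℕ) : ℝ) = (y₂ : ℝ) - y₁ := Nat.cast_sub h12
  have hioc : Ioc y₁ y₂ = Ioc y₁ (y₁ + (y₂ - y₁)) := by
    congr 1
    omega
  have hCe : Chen j x T h y₁ y₂ = Pool.Agent.Y843.AC.HL.Ch j x T h y₁ y₂ := rfl
  have hsub : Chen j x T h y₁ y₂ ⊆ Ioc y₁ (y₁ + (y₂ - y₁)) := by
    rw [← hioc]
    exact Pool.Agent.Y843.AC.HL.Ch_sub T h y₁ y₂
  obtain ⟨G, hG, hG1, hG2⟩ := h2 x e2 T hT y₁ (y₂ - y₁) D (by rw [hcast]; exact hwin) (by omega) hD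
    (by rw [← hcast] at hDy; exact_mod_cast hDy) _ hsub
    (fun n hn => Or.inr (Pool.Agent.Y843.AC.HL.Ch_rough T h y₁ y₂ n hn))
    (by rw [hcast, hCe]; exact h3 x e3 T hT h0T h hh hh0 y₁ y₂ hy2 hy)
  refine ⟨G, ?_, hG1, ?_⟩
  · intro d hd i
    have := hG hd
    rw [Fintype.mem_piFinset] at this
    exact mem_Icc.1 (this i)
  · intro d hd F hF hF0
    obtain ⟨g1, g2, g3⟩ := hG2 d hd F hF hF0
    refine ⟨g1, g2, ?_⟩
    rw [hcast] at g3
    have g4 : c * (Sing (sumSet T d F) * (((y₂ : ℝ) - y₁) / Real.log x ^ (sumSet T d F).card)) =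
        c * (((y₂ : ℝ) - y₁) * Pool.Agent.Y843.AC.HL.gg (Pool.Agent.X26.GP.TF T d F) x) := by
      have e : Pool.Agent.Y843.AC.HL.gg (Pool.Agent.X26.GP.TF T d F) x =
          Sing (sumSet T d F) / Real.log x ^ (sumSet T d F).card := rfl
      rw [e]
      ring
    rw [g4]
    exact g3

end Pool.Agent.Results.MP_68a45e_nt.ChenTuplesInPatterns
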