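import Mathlib
import Pool.Agent.X34.E.E23
import Pool.Agent.X34.E.E4

/-!
# The order of magnitude of prime constellations inside 45-tuples, in short intervals

The conjecture gives the number of the constellations `p + m_i` up to `n` asymptotically. Here, for an arbitrary
admissible set `S` of 45 integers, the integers `n` are counted at which the primes of a long window around `n`
are exactly the `n + z`, `z ∈ P`, for a subset `P` of `S` with at least two elements, and all `n + s`, `s ∈ S`,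
are free of small prime factors: both bounds of the order `x / (log x) ^ 45`, also in short intervals of length
`H ≥ x ^ θ`: the upper bound in all of them, the lower bound in a positive proportion of them.
-/

set_option autoImplicit false

open Finset Filter

namespace Pool.Agent.Results.MP_68a45e_nt.ShortIntervals45

/-- no prime divides one of the `n + s` for every `n` -/
def Admissible (S : Finset ℤ) : Prop := ∀ p : ℕ, p.Prime → ∃ n : ℤ, ∀ s ∈ S, ¬ (p : ℤ) ∣ n + s

/-- all `n + s`, `s ∈ S`, are free of prime factors `≤ y` -/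
def Rough (S : Finset ℤ) (y : ℝ) (n : ℕ) : Prop :=
  ∀ s ∈ S, ∀ p : ℕ, p.Prime → (p : ℝ) ≤ y → ¬ (p : ℤ) ∣ (n : ℤ) + s

/-- `n ≡ r (mod q)`, the primes of the window `[n - R, n + R]` are exactly the `n + z`, `z ∈ P`, and all `n + s`,
`s ∈ S`, are free of prime factors `≤ y` -/
def Constellation (q : ℕ) (r : ℤ) (S P : Finset ℤ) (R : ℕ) (y : ℝ) (n : ℕ) : Prop :=
  (n : ℤ) ≡ r [ZMOD q] ∧
    (∀ z : ℤ, |z| ≤ R → ((∃ p : ℕ, p.Prime ∧ (p : ℤ) = n + z) ↔ z ∈ P)) ∧ Rough S y n

/-- the number of the constellations with `u < n ≤ v` -/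
noncomputable def count (q : ℕ) (r : ℤ) (S P : Finset ℤ) (R : ℕ) (y : ℝ) (u v : ℕ) : ℕ :=
  Set.ncard {n : ℕ | u < n ∧ n ≤ v ∧ Constellation q r S P R y n}

/-- the lower bounds: the right order up to `x`, and in a positive proportion of the intervals
`(m H, (m + 1) H]`, `m ≤ x / H`, for every `H` with `x ^ θ ≤ H ≤ x` -/
def Lower (c θ k : ℝ) (q : ℕ) (r : ℤ) (S P : Finset ℤ) (R x : ℕ) : Prop :=
  c * (x / Real.log x ^ 45) ≤ (count q r S P R ((x : ℝ) ^ k) 0 x : ℝ) ∧
  ∀ H : ℕ, (x : ℝ) ^ θ ≤ H → H ≤ x → c * (x / H) ≤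
    (Set.ncard {m : ℕ | m ≤ x / H ∧
      c * (H / Real.log x ^ 45) ≤ (count q r S P R ((x : ℝ) ^ k) (m * H) ((m + 1) * H) : ℝ)} : ℝ)

/-- There is `k > 0` such that for every admissible set `S` of 45 integers, every residue class `r` modulo `q`
with all `r + s` prime to `q`, every `R` and every `0 < θ ≤ 1` there are `c, C > 0` such that for all large `x`
some `P ⊆ S` with at least two elements satisfies the lower bounds, while every interval `(u, u + H]`, `u ≤ x`,
`x ^ θ ≤ H ≤ x`, contains at most `C H / (log x) ^ 45` integers `n` with all `n + s` free of prime factors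
`≤ x ^ k`, in particular at most so many constellations of all these kinds. One `P` satisfies the lower bounds
for arbitrarily large `x`. -/
theorem result : ∃ k : ℝ, 0 < k ∧ ∀ S : Finset ℤ, S.card = 45 → Admissible S → ∀ (q : ℕ) (r : ℤ), 0 < q →
    (∀ s ∈ S, IsCoprime (r + s) (q : ℤ)) → ∀ (R : ℕ) (θ : ℝ), 0 < θ → θ ≤ 1 →
    ∃ c C : ℝ, 0 < c ∧ 0 < C ∧
      (∀ᶠ x : ℕ in atTop, (∃ P ⊆ S, 2 ≤ P.card ∧ Lower c θ k q r S P R x) ∧
        ∀ u H : ℕ, (x : ℝ) ^ θ ≤ H → H ≤ x → u ≤ x →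
          (Set.ncard {n : ℕ | u < n ∧ n ≤ u + H ∧ Rough S ((x : ℝ) ^ k) n} : ℝ) ≤
            C * (H / Real.log x ^ 45)) ∧
      ∃ P ⊆ S, 2 ≤ P.card ∧ ∃ᶠ x : ℕ in atTop, Lower c θ k q r S P R x := by
  classical
  obtain ⟨k, hk, h⟩ := Pool.Agent.X34.E.exact_two_sided Pool.Agent.X34.E.dhl45R
  refine ⟨k, hk, fun S hS hadm q r hq hr R θ hθ hθ1 => ?_⟩
  obtain ⟨c, C, hc, hC, h1⟩ := h S hS hadm q r hq hr R θ hθ hθ1
  have hall : ∀ᶠ x : ℕ in atTop, (∃ P ⊆ S, 2 ≤ P.card ∧ Lower c θ k q r S P R x) ∧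
        ∀ u H : ℕ, (x : ℝ) ^ θ ≤ H → H ≤ x → u ≤ x →
          (Set.ncard {n : ℕ | u < n ∧ n ≤ u + H ∧ Rough S ((x : ℝ) ^ k) n} : ℝ) ≤
            C * (H / Real.log x ^ 45) := by
    filter_upwards [h1] with x hx
    obtain ⟨h2, P, hP, hP2, h3, h4⟩ := hx
    exact ⟨⟨P, hP, hP2, h3, h4⟩, h2⟩
  refine ⟨c, C, hc, hC, hall, ?_⟩
  by_contra hcon
  push Not at hcon
  have h2 : ∀ P ∈ S.powerset.filter (fun P => 2 ≤ P.card), ∀ᶠ x : ℕ in atTop,
      ¬ Lower c θ k q r S P R x := by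
    intro P hP
    rw [mem_filter, mem_powerset] at hP
    exact hcon P hP.1 hP.2
  have h3 := (Filter.eventually_all_finset _).2 h2
  obtain ⟨x, hx1, hx2⟩ := (hall.and h3).exists
  obtain ⟨⟨P, hP, hP2, hP3⟩, -⟩ := hx1
  exact hx2 P (mem_filter.2 ⟨mem_powerset.2 hP, hP2⟩) hP3

end Pool.Agent.Results.MP_68a45e_nt.ShortIntervals45
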