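import Pool.Agent.X32.Uni.IsoU

/-!
# Isolated almost prime `k`-tuples, uniformly in all admissible tuples of shifts

For every `k` and every radius `L` there are `C`, `t` and `κ > 0` such that for ALL admissible tuples `a` of `k` distinct
integers of size up to `K X` there are sets `Ex_1, ..., Ex_k` of at most `k - 1` exceptional offsets with the following
property. For all members `i ≠ j` and every interval `(A, B]` with `B ≤ X`, `B - A ≥ θ X` at least `κ (B - A) V`
integers `N` of the interval are such that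
* `|N + a_i|` is prime, `|N + a_j|` is a product of at most two primes `> X ^ (1 / 9)`, and all `|N + a_l|` are products of
  at most `t` primes `> X ^ (1 / t)`;
* every other integer `N + a_l + h`, `0 < |h| ≤ L`, `h ∉ Ex_l`, has a prime factor `≤ C`.
Here `V = ∏_{p ≤ X} (1 - ν_p / p)` is the conjectured order of magnitude, uniformly in the shifts. Exceptional offsets are
unavoidable: if `a_l + h ≡ a_m` modulo all small primes then `N + a_l + h` has no small prime factor; in particular, for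
`|a_m - a_l| ≤ L` the offset `a_m - a_l` is exceptional, and if the whole tuple is contained in an interval of length `L`,
then these are all the exceptional offsets, and the tuple is the exact pattern of the integers without prime factors
`≤ C` between `N + min a - L` and `N + max a + L`.
Moreover, for all `s`, every `δ > 0` and every colouring of the integers with `r` colours, all but at most
`δ (B - A) V` of these `N` are covered by pairwise disjoint `s`-term progressions of such `N` of one colour, with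
differences `≤ (log X) ^ c`, where `c` does not depend on the tuple.
-/

set_option autoImplicit false

namespace Pool.Agent.Results.MP_68a45e_nt.UniformIsolation

open Finset

variable {k : ℕ}

/-- the tuple is admissible -/
def Admissible (a : Fin k → ℤ) : Prop := ∀ p : ℕ, p.Prime → ∃ n : ℤ, ∀ l, ¬ (p : ℤ) ∣ n + a l

/-- `ν_p`: the number of the residues `n` modulo `p` for which `p` divides one of the `n + a_l` -/
def nu (a : Fin k → ℤ) (p : ℕ) : ℕ := ((range p).filter (fun n : ℕ => (p : ℤ) ∣ ∏ l, ((n : ℤ) + a l))).card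

/-- the product of `1 - ν_p / p` over the primes `p ≤ X` -/
noncomputable def V (a : Fin k → ℤ) (X : ℕ) : ℝ := ∏ p ∈ (Icc 1 X).filter Nat.Prime, (1 - (nu a p : ℝ) / p)

/-- `|v| > 1`, and `|v|` is a product of at most `r` primes, all of them larger than `y` -/
def Almost (r : ℕ) (y : ℝ) (v : ℤ) : Prop :=
  1 < |v| ∧ v.natAbs.primeFactorsList.length ≤ r ∧ ∀ q : ℕ, q.Prime → (q : ℤ) ∣ v → y < q

open Classical in
/-- the integers `N` of `(A, B]` described above -/
noncomputable def Good (a : Fin k → ℤ) (Ex : Fin k → Finset ℤ) (i j : Fin k) (L C t X A B : ℕ) : Finset ℕ :=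
  (Ioc A B).filter (fun N : ℕ => ((N : ℤ) + a i).natAbs.Prime ∧ Almost 2 ((X : ℝ) ^ (1 / 9 : ℝ)) ((N : ℤ) + a j) ∧
    (∀ l, Almost t ((X : ℝ) ^ (1 / (t : ℝ))) ((N : ℤ) + a l)) ∧
    ∀ (l : Fin k) (h : ℤ), h ≠ 0 → |h| ≤ L → h ∉ Ex l → ∃ q : ℕ, q.Prime ∧ q ≤ C ∧ (q : ℤ) ∣ N + a l + h)

/-- the terms `N, N + d, ..., N + (s - 1) d` of the progression `z = (N, d)` -/
def terms (s : ℕ) (z : ℕ × ℕ) : Finset ℕ := (range s).image (fun m => z.1 + m * z.2)

theorem good_eq (a : Fin k → ℤ) (Ex : Fin k → Finset ℤ) (i j : Fin k) (L C t X A B : ℕ) :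
    Pool.Agent.X32.Uni.GI (fun _ => 1) a Ex i j L C t X A B = Good a Ex i j L C t X A B := by
  ext n
  unfold Pool.Agent.X32.Uni.GI Good
  simp only [mem_filter, one_mul]
  rfl

theorem V_eq (a : Fin k → ℤ) (X : ℕ) : Pool.Agent.X32.Uni.VL (fun _ => 1) a X = V a X := by
  unfold Pool.Agent.X32.Uni.VL V
  apply Finset.prod_congr rfl
  intro p _
  unfold Pool.Agent.X32.Uni.omL nu
  simp only [one_mul]

theorem result (k L : ℕ) (hk : 1 ≤ k) : ∃ C t : ℕ, 1 ≤ t ∧ ∃ κ : ℝ, 0 < κ ∧ ∀ (K s r : ℕ) (θ δ : ℝ),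
    1 ≤ s → 0 < θ → 0 < δ → ∃ c X₀ : ℕ, ∀ X : ℕ, X₀ ≤ X → ∀ a : Fin k → ℤ, Function.Injective a →
      (∀ l, |a l| ≤ K * (X : ℤ)) → Admissible a →
      κ / Real.log X ^ k ≤ V a X ∧ ∃ Ex : Fin k → Finset ℤ, (∀ l, (Ex l).card < k) ∧
        ∀ i j : Fin k, i ≠ j → ∀ A B : ℕ, B ≤ X → θ * X ≤ (B : ℝ) - A →
        κ * ((B : ℝ) - A) * V a X ≤ ((Good a Ex i j L C t X A B).card : ℝ) ∧
        ∀ χ : ℕ → Fin r, ∃ P : Finset (ℕ × ℕ),
          (∀ z ∈ P, 1 ≤ z.2 ∧ (z.2 : ℝ) ≤ Real.log X ^ c ∧
            ∀ m < s, z.1 + m * z.2 ∈ Good a Ex i j L C t X A B ∧ χ (z.1 + m * z.2) = χ z.1) ∧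
          (P : Set (ℕ × ℕ)).PairwiseDisjoint (terms s) ∧
          (((Good a Ex i j L C t X A B \ P.biUnion (terms s)).card : ℕ) : ℝ) ≤ δ * ((B : ℝ) - A) * V a X := by
  obtain ⟨C, t, ht, κ, hκ, H⟩ := Pool.Agent.X32.Uni.isoU k 1 L hk
  refine ⟨C, t, ht, κ, hκ, fun K s r θ δ hs hθ hδ => ?_⟩
  obtain ⟨c, X₀, h⟩ := H K s r θ δ hs hθ hδ
  refine ⟨c, X₀, fun X hX a hinj ha hadm => ?_⟩
  have S : Pool.Agent.X32.Uni.SysI k 1 K X (fun _ => 1) a :=
    { a0 := fun _ => one_ne_zero
      aE := fun _ => by simp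
      bK := ha
      adm := by
        intro p hp
        obtain ⟨n, hn⟩ := hadm p hp
        refine ⟨n, fun l => ?_⟩
        show ¬ (p : ℤ) ∣ 1 * n + a l
        rw [one_mul]
        exact hn l
      det := fun l m hlm h0 => hlm (hinj (by linarith)) }
  have h1 := h X hX _ _ S
  simp only [V_eq, good_eq] at h1
  exact h1

end Pool.Agent.Results.MP_68a45e_nt.UniformIsolation
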